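import Pool.Agent.helper91.MM.SpecB

set_option autoImplicit false

namespace Pool.Agent.MM

open Pool.Agent.Scheepers Filter Topology Cardinal

/-- Monotonicity of `R` along the order, between cut points. -/
theorem ORD_R_sub (hx : XBK_stmt) {S : Sys} {q p : Cnd S} {M : ℕ}
    (hM : ∀ i, M ≤ q.a i → q.a i ∈ Set.range p.a ∧ q.A i ⊆ p.R (q.a i) (q.a (i + 1)))
    {i i' : ℕ} (hi : M ≤ q.a i) : q.R (q.a i) (q.a i') ⊆ p.R (q.a i) (q.a i') := by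
  intro z hz j hj hj'
  obtain ⟨s, hs1, hs2, hs3⟩ := (hx S q).1 i (p.a j) hj
  have hss : M ≤ q.a s := hi.trans (q.mono.monotone hs1)
  obtain ⟨h1, h2⟩ := hM s hss
  have hlt : q.a s < q.a i' := by
    have : p.a j < p.a (j + 1) := p.mono (Nat.lt_succ_self j)
    omega
  have hs4 : s + 1 ≤ i' := q.mono.lt_iff_lt.1 hlt
  have hs5 : q.a (s + 1) ≤ q.a i' := q.mono.monotone hs4
  have h3 : z ∈ q.A s := hz s (q.mono.monotone hs1) hs5
  refine h2 h3 j hs2 ?_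
  have h4 : M ≤ q.a (s + 1) := hss.trans (q.mono.monotone (Nat.le_succ s))
  obtain ⟨⟨m, hm⟩, -⟩ := hM (s + 1) h4
  rw [← hm] at hs3 ⊢
  exact p.mono.monotone (p.mono.lt_iff_lt.1 hs3)

theorem ORD_le_refl {S : Sys} (p : Cnd S) : p.le p :=
  ⟨0, fun i _ => ⟨⟨i, rfl⟩, fun z hz j hj hj' => by
    have h1 : i ≤ j := p.mono.le_iff_le.1 hj
    have h2 : j + 1 ≤ i + 1 := p.mono.le_iff_le.1 hj'
    have : j = i := by omega
    rw [this]; exact hz⟩⟩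

theorem ORD_le_trans (hx : XBK_stmt) {S : Sys} {r q p : Cnd S} (h1 : r.le q) (h2 : q.le p) :
    r.le p := by
  obtain ⟨M1, hM1⟩ := h1
  obtain ⟨M2, hM2⟩ := h2
  refine ⟨max M1 M2, fun i hi => ?_⟩
  have hi1 : M1 ≤ r.a i := (le_max_left _ _).trans hi
  have hi2 : M2 ≤ r.a i := (le_max_right _ _).trans hi
  obtain ⟨⟨s, hs⟩, h3⟩ := hM1 i hi1
  obtain ⟨⟨s', hs'⟩, -⟩ := hM1 (i + 1) (hi1.trans (r.mono.monotone (Nat.le_succ i)))
  constructor
  · rw [← hs]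
    exact (hM2 s (by rw [hs]; exact hi2)).1
  · refine h3.trans ?_
    rw [← hs, ← hs']
    exact ORD_R_sub hx hM2 (by rw [hs]; exact hi2)

theorem ORD_star_sub (hx : XBK_stmt) {S : Sys} {q p : Cnd S} (h : q.le p) : q.star ⊆ p.star := by
  obtain ⟨M, hM⟩ := h
  rintro z ⟨I, hI⟩
  -- a late cut point
  let i0 := max I M
  have hi0 : M ≤ q.a i0 := (le_max_right I M).trans (q.mono.id_le i0)
  refine ⟨q.a i0, fun j hj => ?_⟩
  have hj1 : q.a i0 ≤ p.a j := hj.trans (p.mono.id_le j)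
  obtain ⟨s, hs1, hs2, hs3⟩ := (hx S q).1 i0 (p.a j) hj1
  have hss : M ≤ q.a s := hi0.trans (q.mono.monotone hs1)
  obtain ⟨h1, h2⟩ := hM s hss
  refine h2 (hI s ((le_max_left I M).trans hs1)) j hs2 ?_
  have h4 : M ≤ q.a (s + 1) := hss.trans (q.mono.monotone (Nat.le_succ s))
  obtain ⟨⟨m, hm⟩, -⟩ := hM (s + 1) h4
  rw [← hm] at hs3 ⊢
  exact p.mono.monotone (p.mono.lt_iff_lt.1 hs3)

theorem ORD (h1 : XBK_stmt) : ORD_stmt := by
  intro S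
  exact ⟨ORD_le_refl, fun _ _ _ h2 h3 => ORD_le_trans h1 h2 h3, fun _ _ h => ORD_star_sub h1 h⟩

end Pool.Agent.MM
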